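import Mathlib

namespace Pool.Agent.H.MP_2e5000_an

open MeasureTheory Set Function Filter Topology ProbabilityTheory

/-- The left shift on `{0,1}^ℤ`. -/
def σ (x : ℤ → Bool) (i : ℤ) : Bool := x (i + 1)

/-- The two-neighbour XOR cellular automaton. -/
def F (x : ℤ → Bool) (i : ℤ) : Bool := xor (x i) (x (i + 1))

lemma σ_cont : Continuous σ := by unfold σ; fun_prop

lemma F_cont : Continuous F := continuous_pi fun i =>
  (continuous_of_discreteTopology (f := uncurry xor)).comp (f := fun x : ℤ → Bool => (x i, x (i + 1))) (by fun_prop)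

lemma σ_it (n : ℕ) (x : ℤ → Bool) (i : ℤ) : σ^[n] x i = x (i + n) := by
  induction n generalizing i with
  | zero => simp
  | succ n ih => rw [iterate_succ_apply', σ, ih, Nat.cast_succ, add_assoc, add_comm 1]

lemma F_pow (k : ℕ) : ∀ x i, F^[2 ^ k] x i = xor (x i) (x (i + 2 ^ k)) := by
  induction k with
  | zero => exact fun x i => rfl
  | succ k ih =>
    intro x i
    rw [pow_succ, mul_two, iterate_add_apply, ih, ih, ih, pow_succ, mul_two, ← add_assoc]
    simp

def Dep (W : ℕ) (A : Set (ℤ → Bool)) : Prop := ∀ x y : ℤ → Bool, (∀ i : ℕ, i < W → x i = y i) → x ∈ A → y ∈ A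

def G (m : ℕ) : Set (ℤ → Bool) := {x | F^[m] x 0 = true}

variable {W V : ℕ} {A B : Set (ℤ → Bool)}

lemma Dep.iff (h : Dep W A) {x y : ℤ → Bool} (e : ∀ i : ℕ, i < W → x i = y i) : x ∈ A ↔ y ∈ A :=
  ⟨h x y e, h y x fun i hi => (e i hi).symm⟩

lemma Dep.mono (h : Dep W A) (hW : W ≤ V) : Dep V A := fun x y e => h x y fun i hi => e i (hi.trans_le hW)

lemma Dep.cor (h : Dep W A) (n : ℕ) : Dep (W + n) (A ∩ σ^[n] ⁻¹' A) := fun x y e hx =>
  ⟨h x y (fun i hi => e i (by omega)) hx.1, h _ _ (fun i hi => by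
    rw [σ_it, σ_it]; exact_mod_cast e (i + n) (by omega)) hx.2⟩

lemma Dep.clopen (h : Dep W A) : IsClopen A := by
  have : A = (fun x (i : Fin W) => x (i : ℕ)) ⁻¹' ((fun x (i : Fin W) => x (i : ℕ)) '' A) :=
    (subset_preimage_image _ _).antisymm fun y ⟨x, hx, e⟩ => h x y (fun i hi => congrFun e ⟨i, hi⟩) hx
  rw [this]
  exact (isClopen_discrete _).preimage (by fun_prop)

lemma dep_G (m : ℕ) : Dep (m + 1) (G m) := by
  have : ∀ (x y : ℤ → Bool) (a : ℕ), (∀ i : ℕ, i < a + m + 1 → x i = y i) → F^[m] x a = F^[m] y a := by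
    induction m with
    | zero => exact fun x y a e => e a (by omega)
    | succ m ih =>
      intro x y a e
      rw [iterate_succ_apply', iterate_succ_apply', F, F, ih x y a fun i hi => e i (by omega), ← Nat.cast_succ,
        ih x y (a + 1) fun i hi => e i (by omega)]
  exact fun x y e hx => (this x y 0 (by simpa using e)).symm.trans hx

noncomputable def avg {α : Type} [MeasurableSpace α] (n : ℕ) (f : ℕ → Measure α) : Measure α :=
  (n : NNReal)⁻¹ • ∑ i ∈ Finset.range n, f i

section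
variable {α : Type} [MeasurableSpace α] {n : ℕ} {f : ℕ → Measure α} [∀ i, IsProbabilityMeasure (f i)]

instance [NeZero n] : IsProbabilityMeasure (avg n f) := ⟨by
  simp [avg, ENNReal.smul_def, ENNReal.inv_mul_cancel, NeZero.ne n]⟩

lemma avg_real (A : Set α) : (avg n f).real A = (∑ i ∈ Finset.range n, (f i).real A) / n := by
  rw [avg, measureReal_nnreal_smul_apply, div_eq_inv_mul]
  simp [Measure.real, ENNReal.toReal_sum]

lemma avg_le [NeZero n] (A : Set α) (c : ℝ) : |(avg n f).real A - c| ≤ (∑ i ∈ Finset.range n, |(f i).real A - c|) / n := by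
  have : (0 : ℝ) < n := by exact_mod_cast Nat.pos_of_neZero n
  rw [avg_real, show (∑ i ∈ Finset.range n, (f i).real A) / n - c = (∑ i ∈ Finset.range n, ((f i).real A - c)) / n by
    simp; field_simp, abs_div, abs_of_pos this]
  gcongr
  exact Finset.abs_sum_le_sum_abs _ _

end

lemma per {f : ℕ → ℝ} {p : ℕ} (hf : Periodic f p) (a k : ℕ) :
    ∑ n ∈ Finset.range (p * k), f (a + n) = k * ∑ n ∈ Finset.range p, f n := by
  have h1 : ∀ a, ∑ n ∈ Finset.range p, f (a + n) = ∑ n ∈ Finset.range p, f n := fun a => by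
    induction a with
    | zero => simp
    | succ a ih =>
      have h2 := Finset.sum_range_succ (fun n => f (a + n)) p
      rw [Finset.sum_range_succ', hf, ih] at h2
      simpa [add_assoc, add_comm 1] using h2
  induction k with
  | zero => simp
  | succ k ih => simp only [mul_add, mul_one, Finset.sum_range_add, ih, ← add_assoc, h1, Nat.cast_succ, add_mul, one_mul]

lemma le1 {a b : ℝ} (h1 : 0 ≤ a) (h2 : a ≤ 1) (h3 : 0 ≤ b) (h4 : b ≤ 1) : |a - b| ≤ 1 := abs_le.2 ⟨by linarith, by linarith⟩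

variable (l D : ℕ) [NeZero l] [NeZero D]

def cat (u : ℕ) (y : ZMod D → ℤ → Bool) (i : ℤ) : Bool := y ((i + u) / l : ℤ) ((i + u) % l)

lemma cat_meas (u : ℕ) : Measurable (cat l D u) := by unfold cat; fun_prop

variable (μ : Measure (ℤ → Bool)) [IsProbabilityMeasure μ]

noncomputable def ρ (u : ℕ) : Measure (ℤ → Bool) := (Measure.pi fun _ => μ).map (cat l D u)

instance (u : ℕ) : IsProbabilityMeasure (ρ l D μ u) := Measure.isProbabilityMeasure_map (cat_meas l D u).aemeasurable

omit [NeZero D] in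
lemma cat_per (u : ℕ) (y : ZMod D → ℤ → Bool) (i : ℤ) : cat l D u y (i + l * D) = cat l D u y i := by
  have : (l : ℤ) ≠ 0 := by exact_mod_cast NeZero.ne l
  simp [cat, add_right_comm i (l * D : ℤ), Int.add_mul_ediv_left _ _ this]

lemma ν_inv : (avg (l * D) (ρ l D μ)).map σ = avg (l * D) (ρ l D μ) := by
  have h1 : ∀ u, (ρ l D μ u).map σ = ρ l D μ (u + 1) := fun u => by
    rw [ρ, Measure.map_map σ_cont.measurable (cat_meas l D u), ρ]
    congr 1
    funext y i
    simp [σ, cat, add_assoc, add_comm (1 : ℤ)]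
  have h2 := Finset.sum_range_succ (ρ l D μ) (l * D)
  rw [Finset.sum_range_succ', show ρ l D μ (l * D) = ρ l D μ 0 by
    unfold ρ
    congr 1
    funext y i
    simpa [cat] using cat_per l D 0 y i] at h2
  rw [avg, Measure.map_smul, Measure.map_finset_sum σ_cont.measurable.aemeasurable]
  simp only [h1]
  congr 1
  ext S hS
  exact (ENNReal.add_left_inj (measure_ne_top (ρ l D μ 0) S)).1 (congrArg (· S) h2)

lemma ν_zero {k m : ℕ} (h : l * D = 2 ^ k) (hm : 2 ^ k ≤ m) : (avg (l * D) (ρ l D μ)).real (G m) = 0 := by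
  rw [avg_real, Finset.sum_eq_zero fun u _ => ?_, zero_div]
  rw [ρ, map_measureReal_apply (cat_meas l D u) (dep_G m).clopen.isOpen.measurableSet,
    eq_empty_of_forall_notMem (s := _ ⁻¹' _) fun y hy => ?_, measureReal_empty]
  obtain ⟨m, rfl⟩ := Nat.exists_eq_add_of_le' hm
  have h1 : F^[2 ^ k] (cat l D u y) = fun _ => false := funext fun i => by
    rw [F_pow, show (2 : ℤ) ^ k = l * D by exact_mod_cast h.symm, cat_per, Bool.xor_self]
  rw [mem_preimage, G, mem_ofPred, iterate_add_apply, h1, iterate_fixed (by rfl)] at hy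
  exact Bool.false_ne_true hy

variable {l D μ} (hμ : μ.map σ = μ)
include hμ

omit [NeZero D] hμ in
lemma cat_mem (h : Dep W A) {u : ℕ} (hu : u % l + W ≤ l) :
    cat l D u ⁻¹' A = (fun y => y (u / l : ℕ)) ⁻¹' (σ^[u % l] ⁻¹' A) := ext fun y => h.iff fun i hi => by
  have h0 := Nat.pos_of_neZero l
  have h1 : (i + u) / l = u / l := by
    conv_lhs => rw [← Nat.mod_add_div u l, ← add_assoc, Nat.add_mul_div_left _ _ h0, Nat.div_eq_of_lt (by omega), zero_add]
  have h2 : (i + u) % l = i + u % l := by rw [← Nat.add_mod_mod, Nat.mod_eq_of_lt (by omega)]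
  rw [σ_it, cat, ← Nat.cast_add, ← Nat.cast_add, ← h1, ← h2]
  norm_cast

omit [IsProbabilityMeasure μ] in
lemma inv_it (hA : MeasurableSet A) (n : ℕ) : μ.real (σ^[n] ⁻¹' A) = μ.real A :=
  (MeasurePreserving.iterate ⟨σ_cont.measurable, hμ⟩ n).measureReal_preimage hA.nullMeasurableSet

omit hμ [NeZero D] in
lemma bad (a : ℕ) : ∑ u ∈ Finset.range (l * D), (if (a + u) % l + W ≤ l then 0 else 1 : ℝ) ≤ D * W := by
  rw [per (f := fun u => if u % l + W ≤ l then 0 else 1) (fun u => by simp)]
  refine mul_le_mul_of_nonneg_left ?_ D.cast_nonneg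
  simp only [Finset.sum_ite, Finset.sum_const_zero, zero_add, Finset.sum_const, nsmul_eq_mul, mul_one, Nat.cast_le]
  refine (Finset.card_le_card (t := Finset.Ico (l - W) l) fun i hi => ?_).trans (by simp; omega)
  simp only [Finset.mem_filter, Finset.mem_range, Finset.mem_Ico] at hi ⊢
  rw [Nat.mod_eq_of_lt hi.1] at hi
  omega

lemma ν_near (h : Dep W A) (hW : W * D ≤ l) : |(avg (l * D) (ρ l D μ)).real A - μ.real A| ≤ 1 / D := by
  have hA := h.clopen.isOpen.measurableSet
  have h0 : (0 : ℝ) < l := by exact_mod_cast Nat.pos_of_neZero l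
  have h1 : (0 : ℝ) < D := by exact_mod_cast Nat.pos_of_neZero D
  refine (avg_le A _).trans ?_
  rw [div_le_div_iff₀ (by push_cast; positivity) h1]
  refine (mul_le_mul_of_nonneg_right ((Finset.sum_le_sum fun u _ => ?_).trans (bad (W := W) 0)) h1.le).trans ?_
  · split_ifs with c
    · rw [ρ, map_measureReal_apply (cat_meas l D u) hA, cat_mem h (by simpa using c), (measurePreserving_eval _ _).measureReal_preimage
        (σ_cont.measurable.iterate _ hA).nullMeasurableSet, inv_it hμ hA, sub_self, abs_zero]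
    · exact le1 measureReal_nonneg measureReal_le_one measureReal_nonneg measureReal_le_one
  · have : (W : ℝ) * D ≤ l := by exact_mod_cast hW
    push_cast
    nlinarith

lemma ν_cor (h : Dep W A) (hW : W * D ≤ l) (k : ℕ) : ∑ n ∈ Finset.range (l * D * k),
    |(avg (l * D) (ρ l D μ)).real (A ∩ σ^[n] ⁻¹' A) - μ.real A * μ.real A| ≤ (l * D * k : ℕ) * (3 / D) := by
  have hA := h.clopen.isOpen.measurableSet
  have h0 : (0 : ℝ) < l := by exact_mod_cast Nat.pos_of_neZero l
  have h1 : (0 : ℝ) < D := by exact_mod_cast Nat.pos_of_neZero D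
  have h2 : ∀ n u, |(ρ l D μ u).real (A ∩ σ^[n] ⁻¹' A) - μ.real A * μ.real A| ≤ (if (0 + u) % l + W ≤ l then 0 else 1) +
      (if (n + u) % l + W ≤ l then 0 else 1) + if (((u + n) / l : ℕ) : ZMod D) = (u / l : ℕ) then 1 else 0 := fun n u => by
    have h3 := le1 (measureReal_nonneg (μ := ρ l D μ u) (s := A ∩ σ^[n] ⁻¹' A)) measureReal_le_one
      (mul_self_nonneg (μ.real A)) (mul_le_one₀ measureReal_le_one measureReal_nonneg measureReal_le_one)
    split_ifs with a b c <;> try linarith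
    have h4 : cat l D u ⁻¹' (σ^[n] ⁻¹' A) = cat l D (u + n) ⁻¹' A := ext fun y => by
      rw [mem_preimage, mem_preimage, mem_preimage, show σ^[n] (cat l D u y) = cat l D (u + n) y from funext fun i => by
        simp [σ_it, cat, add_assoc, add_comm (n : ℤ)]]
    have h5 := fun j => σ_cont.measurable.iterate j hA
    rw [ρ, map_measureReal_apply (cat_meas l D u) (hA.inter (h5 n)), preimage_inter, h4, cat_mem h (by simpa using a),
      cat_mem h (by rwa [add_comm u]), Measure.real, ((iIndepFun_pi (X := fun _ x => x) fun _ => aemeasurable_id).indepFun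
        (Ne.symm c)).measure_inter_preimage_eq_mul _ _ (h5 _) (h5 _), ENNReal.toReal_mul]
    rw [← Measure.real, ← Measure.real, (measurePreserving_eval _ _).measureReal_preimage (h5 _).nullMeasurableSet,
      (measurePreserving_eval _ _).measureReal_preimage (h5 _).nullMeasurableSet, inv_it hμ hA, inv_it hμ hA]
    simp
  have h3 : ∀ u, ∑ n ∈ Finset.range (l * D * k), (if (((u + n) / l : ℕ) : ZMod D) = (u / l : ℕ) then 1 else 0 : ℝ) ≤
      k * l := fun u => by
    rw [per (f := fun n => if ((n / l : ℕ) : ZMod D) = (u / l : ℕ) then 1 else 0) (fun n => by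
      simp [Nat.add_mul_div_left _ _ (Nat.pos_of_neZero l)])]
    refine mul_le_mul_of_nonneg_left ?_ k.cast_nonneg
    simp only [Finset.sum_boole, Nat.cast_le]
    refine (Finset.card_le_card_of_injOn (t := Finset.range l) (· % l) (fun i _ => by
      simp [Nat.mod_lt _ (Nat.pos_of_neZero l)]) fun i hi j hj e => ?_).trans (by simp)
    simp only [Finset.coe_filter, Finset.mem_range, mem_ofPred] at hi hj
    have := (ZMod.natCast_eq_natCast_iff' _ _ _).1 (hi.2.trans hj.2.symm)
    rw [Nat.mod_eq_of_lt (Nat.div_lt_of_lt_mul hi.1), Nat.mod_eq_of_lt (Nat.div_lt_of_lt_mul hj.1)] at this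
    rw [← Nat.mod_add_div i l, ← Nat.mod_add_div j l, this, show i % l = j % l from e]
  refine (Finset.sum_le_sum fun n _ => (avg_le _ _).trans (div_le_div_of_nonneg_right
    (Finset.sum_le_sum fun u _ => h2 n u) (by positivity))).trans ?_
  rw [← Finset.sum_div, div_le_iff₀ (by push_cast; positivity)]
  simp only [Finset.sum_add_distrib]
  refine (add_le_add (add_le_add (Finset.sum_le_card_nsmul _ _ _ fun n _ => bad 0) (Finset.sum_le_card_nsmul _ _ _
    fun n _ => bad n)) (Finset.sum_comm.trans_le (Finset.sum_le_card_nsmul _ _ _ fun u _ => h3 u))).trans ?_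
  have : (W : ℝ) * D ≤ l := by exact_mod_cast hW
  simp only [Finset.card_range, nsmul_eq_mul]
  push_cast
  rw [show (l : ℝ) * D * k * (3 / D) * (l * D) = 3 * (l * D * k * l) by field_simp]
  nlinarith [mul_le_mul_of_nonneg_left this (show (0 : ℝ) ≤ l * D * k by positivity)]

lemma step (W : ℕ) {ε : ℝ} (hε : 0 < ε) : ∃ (ν : Measure (ℤ → Bool)) (_ : IsProbabilityMeasure ν) (N : ℕ),
    ν.map σ = ν ∧ 0 < N ∧ (∀ m, N ≤ m → ν.real (G m) = 0) ∧ (∀ m, ν.real (G m) ≤ μ.real (G m) + ε) ∧ ∀ A, Dep W A →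
      |ν.real A - μ.real A| ≤ ε ∧ ∑ n ∈ Finset.range N, |ν.real (A ∩ σ^[n] ⁻¹' A) - μ.real A * μ.real A| ≤ N * ε := by
  obtain ⟨Z, hZ⟩ := pow_unbounded_of_one_lt (max (W : ℝ) (3 / ε)) one_lt_two
  obtain ⟨D, hD⟩ : ∃ D, D = 2 ^ Z := ⟨_, rfl⟩
  have h0 : 0 < D := hD ▸ Nat.two_pow_pos Z
  have : NeZero D := ⟨h0.ne'⟩
  have h1 : (0 : ℝ) < D := by positivity
  have h2 : 3 / (D : ℝ) ≤ ε := by
    rw [div_le_comm₀ h1 hε, hD]
    exact_mod_cast ((le_max_right _ _).trans hZ.le)
  have h3 : 1 / (D : ℝ) + 1 / D ≤ ε := le_trans (by rw [← add_div]; gcongr; norm_num) h2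
  have hW : ∀ s, W * D ≤ D ^ (2 * s + 2) := fun s => by
    rw [pow_succ]
    exact Nat.mul_le_mul_right _ (le_trans (by rw [hD]; exact_mod_cast ((le_max_left _ _).trans hZ.le))
      (Nat.le_self_pow (by omega) D))
  have hz : ∀ s m, D ^ (2 * s + 3) ≤ m → (avg (D ^ (2 * s + 2) * D) (ρ (D ^ (2 * s + 2)) D μ)).real (G m) = 0 :=
    fun s m hm => ν_zero _ _ _ (k := Z * (2 * s + 3)) (by rw [pow_mul, ← hD, ← pow_succ]) (by rwa [pow_mul, ← hD])
  refine ⟨avg D fun s => avg (D ^ (2 * s + 2) * D) (ρ (D ^ (2 * s + 2)) D μ), inferInstance, D ^ (2 * D + 3), ?_,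
    by positivity, fun m hm => ?_, fun m => ?_, fun A h => ⟨(avg_le _ _).trans ?_, ?_⟩⟩
  · rw [avg, Measure.map_smul, Measure.map_finset_sum σ_cont.measurable.aemeasurable]
    simp only [ν_inv]
  · rw [avg_real, Finset.sum_eq_zero fun s hs => hz s m ((Nat.pow_le_pow_right h0 (by
      have := Finset.mem_range.1 hs; omega)).trans hm), zero_div]
  · rw [avg_real, div_le_iff₀ h1]
    refine (Finset.sum_le_sum (g := fun s => μ.real (G m) + 1 / D + if D ^ (2 * s + 1) ≤ m ∧ m < D ^ (2 * s + 3) then 1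
      else 0) fun s _ => ?_).trans ?_
    · have h4 : 0 ≤ μ.real (G m) + 1 / D := by positivity
      split_ifs with c
      · linarith [measureReal_le_one (μ := avg (D ^ (2 * s + 2) * D) (ρ (D ^ (2 * s + 2)) D μ)) (s := G m)]
      · rcases not_and_or.1 c with c | c
        · linarith [(abs_le.1 (ν_near (l := D ^ (2 * s + 2)) (D := D) hμ (dep_G m) (by
            rw [pow_succ]; exact Nat.mul_le_mul_right _ (by omega)))).2]
        · rw [hz s m (not_lt.1 c), add_zero]
          exact h4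
    · have h4 : ((Finset.range D).filter fun s => D ^ (2 * s + 1) ≤ m ∧ m < D ^ (2 * s + 3)).card ≤ 1 :=
        Finset.card_le_one.2 fun s hs t ht => by
          have a := (Finset.mem_filter.1 hs).2
          have b := (Finset.mem_filter.1 ht).2
          have c := not_le.1 fun e => (a.1.trans_lt b.2).not_ge (Nat.pow_le_pow_right h0 e)
          have d := not_le.1 fun e => (b.1.trans_lt a.2).not_ge (Nat.pow_le_pow_right h0 e)
          omega
      rw [Finset.sum_add_distrib, Finset.sum_boole, Finset.sum_const, Finset.card_range, nsmul_eq_mul]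
      have h5 : (((Finset.range D).filter fun s => D ^ (2 * s + 1) ≤ m ∧ m < D ^ (2 * s + 3)).card : ℝ) ≤ 1 := by
        exact_mod_cast h4
      have h6 := mul_le_mul_of_nonneg_right h3 h1.le
      rw [add_mul, one_div_mul_cancel h1.ne'] at h6
      rw [mul_add, mul_one_div_cancel h1.ne']
      linarith
  · rw [div_le_iff₀' h1, ← nsmul_eq_mul]
    exact (Finset.sum_le_card_nsmul _ _ ε fun s _ => (ν_near hμ h (hW s)).trans
      (by linarith [one_div_pos.2 h1])).trans_eq (by rw [Finset.card_range])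
  · refine (Finset.sum_le_sum fun n _ => avg_le _ _).trans ?_
    rw [← Finset.sum_div, Finset.sum_comm, div_le_iff₀' h1, ← nsmul_eq_mul]
    refine (Finset.sum_le_card_nsmul _ _ _ fun s hs => ?_).trans_eq (by rw [Finset.card_range])
    have e : D ^ (2 * D + 3) = D ^ (2 * s + 2) * D * D ^ (2 * D - 2 * s) := by
      rw [← pow_succ, ← pow_add]
      have := Finset.mem_range.1 hs
      congr 1
      omega
    rw [e]
    exact (ν_cor hμ h (hW s) _).trans (by gcongr)

end Pool.Agent.H.MP_2e5000_an
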